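import Pool.Agent.V5helper29.CP.Core

/-!
# Commuting invertible compact perturbations of the pair (T,T)

For a Fredholm operator `T` on a complex Hilbert space there are compact operators `K₁`, `K₂`
such that `(T + K₁, T + K₂)` is a commuting (Taylor) invertible pair if and only if the index of
`T` is zero. The unilateral shift is a Fredholm operator of index `-1`, so the answer to the
question is negative.
-/

set_option autoImplicit false

open Module

namespace Pool.Agent.Results.MP_b56e9d_an.IndexObstruction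

open Pool.Agent.V5helper29.CP

/-- The Hilbert space `ℓ²(ℕ)`. -/
def L2 : Type := lp (fun _ : ℕ => ℂ) 2

noncomputable instance instL2a : NormedAddCommGroup L2 :=
  (inferInstance : NormedAddCommGroup (lp (fun _ : ℕ => ℂ) 2))

noncomputable instance instL2b : InnerProductSpace ℂ L2 :=
  (inferInstance : InnerProductSpace ℂ (lp (fun _ : ℕ => ℂ) 2))

instance instL2c : CompleteSpace L2 :=
  (inferInstance : CompleteSpace (lp (fun _ : ℕ => ℂ) 2))

/-- The `n`-th coordinate of a vector of `ℓ²(ℕ)`. -/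
def coord (n : ℕ) (f : L2) : ℂ := (show lp (fun _ : ℕ => ℂ) 2 from f) n

section defs

variable {H : Type} [NormedAddCommGroup H] [InnerProductSpace ℂ H]

/-- Fredholm operators: closed range, finite-dimensional kernel and cokernel. -/
def FredholmOp (T : H →L[ℂ] H) : Prop :=
  IsClosed (Set.range T) ∧ FiniteDimensional ℂ (LinearMap.ker (T : H →ₗ[ℂ] H)) ∧
    FiniteDimensional ℂ (H ⧸ LinearMap.range (T : H →ₗ[ℂ] H))

/-- The index of a Fredholm operator: the dimension of the kernel minus the dimension of the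
cokernel. -/
noncomputable def index (T : H →L[ℂ] H) : ℤ :=
  (finrank ℂ (LinearMap.ker (T : H →ₗ[ℂ] H)) : ℤ) -
    finrank ℂ (H ⧸ LinearMap.range (T : H →ₗ[ℂ] H))

/-- `(S₁, S₂)` is a commuting pair with an exact Koszul complex. -/
def InvertiblePair (S₁ S₂ : H →L[ℂ] H) : Prop :=
  (∀ x, S₁ (S₂ x) = S₂ (S₁ x)) ∧
  (∀ x, S₁ x = 0 → S₂ x = 0 → x = 0) ∧
  (∀ y, ∃ u v, S₁ u + S₂ v = y) ∧
  (∀ x y, S₁ y = S₂ x → ∃ z, x = S₁ z ∧ y = S₂ z)

/-- `(T, T)` has a commuting invertible compact perturbation. -/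
def HasInvertiblePerturbation (T : H →L[ℂ] H) : Prop :=
  ∃ K₁ K₂ : H →L[ℂ] H, IsCompactOperator K₁ ∧ IsCompactOperator K₂ ∧
    InvertiblePair (T + K₁) (T + K₂)

/-- The Koszul complex of `(S₁, S₂)` is not exact at one of its two ends: there is a common
kernel vector, or the ranges do not span. -/
def EndFails (S₁ S₂ : H →L[ℂ] H) : Prop :=
  (∃ x, x ≠ 0 ∧ S₁ x = 0 ∧ S₂ x = 0) ∨ (∃ y, ∀ u v, S₁ u + S₂ v ≠ y)

/-- Every commuting compact perturbation of `(T, T)` fails to be exact at an end. -/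
def EndsFail (T : H →L[ℂ] H) : Prop :=
  ∀ K₁ K₂ : H →L[ℂ] H, IsCompactOperator K₁ → IsCompactOperator K₂ →
    (∀ x, (T + K₁) ((T + K₂) x) = (T + K₂) ((T + K₁) x)) → EndFails (T + K₁) (T + K₂)

/-- `T` is the unilateral shift on `ℓ²(ℕ)`. -/
def IsShift (T : L2 →L[ℂ] L2) : Prop :=
  ∀ f, coord 0 (T f) = 0 ∧ ∀ n, coord (n + 1) (T f) = coord n f

end defs

variable {H : Type} [NormedAddCommGroup H] [InnerProductSpace ℂ H] [CompleteSpace H]

/-- Commuting compact perturbations that are exact at both ends of the Koszul complex exist only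
in index zero. -/
lemma index_zero_of_ends {T K₁ K₂ : H →L[ℂ] H} (hT : FredholmOp T)
    (hK₁ : IsCompactOperator K₁) (hK₂ : IsCompactOperator K₂)
    (hc : ∀ x, (T + K₁) ((T + K₂) x) = (T + K₂) ((T + K₁) x))
    (h0 : ∀ x, (T + K₁) x = 0 → (T + K₂) x = 0 → x = 0)
    (h1 : ∀ y, ∃ u v, (T + K₁) u + (T + K₂) v = y) : index T = 0 := by
  obtain ⟨-, hf1, hf2⟩ := hT
  -- `A = T + K₁` is Fredholm
  obtain ⟨S, hS1, hS2⟩ := exists_parametrix T hf1 hf2
  set A : H →L[ℂ] H := T + K₁ with hA
  have hSA : IsCompactOperator (S.comp A - 1 : H →L[ℂ] H) := by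
    have h2 : (S.comp A - 1 : H →L[ℂ] H) = (S.comp T - 1) + S.comp K₁ := by
      rw [hA, ContinuousLinearMap.comp_add]; abel
    rw [h2]
    exact hS1.add (hK₁.clm_comp S)
  have hAS : IsCompactOperator (A.comp S - 1 : H →L[ℂ] H) := by
    have h2 : (A.comp S - 1 : H →L[ℂ] H) = (T.comp S - 1) + K₁.comp S := by
      rw [hA, ContinuousLinearMap.add_comp]; abel
    rw [h2]
    exact hS2.add (hK₁.comp_clm S)
  obtain ⟨hA1, hA2⟩ := fin_of_inv A S hSA hAS
  have hidx : index A = index T :=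
    finrank_eq_of_bd hA1 hA2 hf1 hf2 (by
      have h2 : (T - A : H →L[ℂ] H) = -K₁ := by rw [hA]; abel
      rw [h2]; exact hK₁.neg)
  rw [← hidx]
  set B : H →L[ℂ] H := T + K₂ with hB
  have hAB : (B - A : H →L[ℂ] H) = K₂ - K₁ := by rw [hA, hB]; abel
  have h3 := index_eq_zero A (B - A) (by
    intro x
    show A (B x - A x) = B (A x) - A (A x)
    rw [map_sub, hc]) (by rw [hAB]; exact hK₂.sub hK₁) hA1 hA2 (by
    intro x hx1 hx2
    have hx2' : B x - A x = 0 := hx2
    exact h0 x hx1 (by rw [sub_eq_zero.1 hx2', hx1])) (by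
    intro y
    obtain ⟨u, v, huv⟩ := h1 y
    refine ⟨u + v, v, ?_⟩
    show A (u + v) + (B v - A v) = y
    rw [← huv, map_add]
    abel)
  show (finrank ℂ (LinearMap.ker (A : H →ₗ[ℂ] H)) : ℤ) -
    finrank ℂ (H ⧸ LinearMap.range (A : H →ₗ[ℂ] H)) = 0
  rw [h3, sub_self]

/-- In index zero a commuting invertible compact perturbation of `(T, T)` exists. -/
lemma exists_of_index_zero {T : H →L[ℂ] H} (hT : FredholmOp T) (h : index T = 0) :
    ∃ K₁ K₂ : H →L[ℂ] H, IsCompactOperator K₁ ∧ IsCompactOperator K₂ ∧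
      InvertiblePair (T + K₁) (T + K₂) := by
  obtain ⟨-, hf1, hf2⟩ := hT
  obtain ⟨K, hK, hb⟩ := exists_bijective T hf1 hf2 (by
    have h1 : (finrank ℂ (LinearMap.ker (T : H →ₗ[ℂ] H)) : ℤ) -
      finrank ℂ (H ⧸ LinearMap.range (T : H →ₗ[ℂ] H)) = 0 := h
    omega)
  refine ⟨K, K, hK, hK, fun _ => rfl, ?_, ?_, ?_⟩
  · intro x hx _
    exact hb.1 (by rw [hx, map_zero])
  · intro y
    obtain ⟨u, hu⟩ := hb.2 y
    exact ⟨u, 0, by rw [map_zero, add_zero, hu]⟩
  · intro x y hxy
    obtain ⟨z, hz⟩ := hb.2 x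
    exact ⟨z, hz.symm, by rw [hz]; exact hb.1 hxy⟩

/-- The underlying function of the unilateral shift. -/
def shf (f : ℕ → ℂ) : ℕ → ℂ
  | 0 => 0
  | n + 1 => f n

lemma shf_mem (f : lp (fun _ : ℕ => ℂ) 2) : Memℓp (shf (f : ℕ → ℂ)) 2 := by
  have h1 := lp.memℓp f
  rw [memℓp_gen_iff (by norm_num)] at h1 ⊢
  rw [← summable_nat_add_iff 1]
  exact h1

lemma shf_norm (f : lp (fun _ : ℕ => ℂ) 2) :
    ‖(⟨shf (f : ℕ → ℂ), shf_mem f⟩ : lp (fun _ : ℕ => ℂ) 2)‖ = ‖f‖ := by
  have h1 : (0 : ℝ) < (2 : ENNReal).toReal := by norm_num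
  rw [lp.norm_eq_tsum_rpow h1, lp.norm_eq_tsum_rpow h1]
  congr 1
  have h2 : Summable fun n => ‖shf (f : ℕ → ℂ) n‖ ^ (2 : ENNReal).toReal :=
    (memℓp_gen_iff h1).1 (shf_mem f)
  have h3 := h2.tsum_eq_zero_add
  show ∑' n, ‖shf (f : ℕ → ℂ) n‖ ^ (2 : ENNReal).toReal = _
  rw [h3]
  show ‖(0 : ℂ)‖ ^ (2 : ENNReal).toReal + ∑' n, ‖f n‖ ^ (2 : ENNReal).toReal = _
  rw [norm_zero, Real.zero_rpow h1.ne', zero_add]

lemma L2ext {f g : L2} (h : ∀ n, coord n f = coord n g) : f = g := by
  have h1 : (show lp (fun _ : ℕ => ℂ) 2 from f) = (show lp (fun _ : ℕ => ℂ) 2 from g) := by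
    ext n
    exact h n
  exact h1

lemma coord_zero (n : ℕ) : coord n (0 : L2) = 0 := rfl

lemma coord_add (n : ℕ) (f g : L2) : coord n (f + g) = coord n f + coord n g := rfl

lemma coord_smul (n : ℕ) (c : ℂ) (f : L2) : coord n (c • f) = c • coord n f := rfl

/-- The unilateral shift on `ℓ²(ℕ)`. -/
noncomputable def shift : L2 →L[ℂ] L2 :=
  LinearMap.mkContinuous
    { toFun := fun f => (show L2 from (⟨shf (fun n => coord n f), shf_mem f⟩ :
        lp (fun _ : ℕ => ℂ) 2))
      map_add' := fun f g => by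
        refine L2ext fun n => ?_
        rw [coord_add]
        cases n with
        | zero => exact (add_zero (0 : ℂ)).symm
        | succ n => rfl
      map_smul' := fun c f => by
        refine L2ext fun n => ?_
        rw [coord_smul]
        cases n with
        | zero => exact (smul_zero c).symm
        | succ n => rfl } 1 (fun f => by
          rw [one_mul]
          exact (shf_norm f).le)

lemma shift_zero (f : L2) : coord 0 (shift f) = 0 := rfl

lemma shift_succ (f : L2) (n : ℕ) : coord (n + 1) (shift f) = coord n f := rfl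

/-- The functional `f ↦ f 0`. -/
noncomputable def ev0 : L2 →L[ℂ] ℂ :=
  LinearMap.mkContinuous
    { toFun := fun f => coord 0 f
      map_add' := fun f g => rfl
      map_smul' := fun c f => rfl } 1 (fun f => by
        rw [one_mul]
        exact lp.norm_apply_le_norm (by norm_num) (show lp (fun _ : ℕ => ℂ) 2 from f) 0)

lemma ev0_apply (f : L2) : ev0 f = coord 0 f := rfl

lemma range_shift : LinearMap.range (shift : L2 →ₗ[ℂ] L2) =
    LinearMap.ker (ev0 : L2 →ₗ[ℂ] ℂ) := by
  ext g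
  constructor
  · rintro ⟨f, rfl⟩
    exact shift_zero f
  · intro hg
    have hg' : coord 0 g = 0 := hg
    have hm : Memℓp (fun n => coord (n + 1) g) 2 := by
      have h1 := lp.memℓp (show lp (fun _ : ℕ => ℂ) 2 from g)
      rw [memℓp_gen_iff (by norm_num)] at h1 ⊢
      exact (summable_nat_add_iff 1).2 h1
    refine ⟨(show L2 from (⟨fun n => coord (n + 1) g, hm⟩ : lp (fun _ : ℕ => ℂ) 2)), ?_⟩
    refine L2ext fun n => ?_
    cases n with
    | zero => exact hg'.symm
    | succ n => rfl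

lemma ker_shift : LinearMap.ker (shift : L2 →ₗ[ℂ] L2) = ⊥ := by
  rw [LinearMap.ker_eq_bot']
  intro f hf
  refine L2ext fun n => ?_
  have h2 : shift f = 0 := hf
  rw [← shift_succ, h2]
  rfl

lemma ev0_surj : Function.Surjective (ev0 : L2 →ₗ[ℂ] ℂ) := by
  intro c
  refine ⟨(show L2 from (lp.single 2 0 c : lp (fun _ : ℕ => ℂ) 2)), ?_⟩
  show (lp.single 2 0 c : lp (fun _ : ℕ => ℂ) 2) 0 = c
  rw [lp.single_apply_self]

lemma fredholm_shift : FredholmOp shift := by
  refine ⟨?_, ?_, ?_⟩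
  · have h1 : Set.range shift = (LinearMap.range (shift : L2 →ₗ[ℂ] L2) : Set L2) := rfl
    rw [h1, range_shift]
    exact ContinuousLinearMap.isClosed_ker ev0
  · rw [ker_shift]
    infer_instance
  · rw [range_shift]
    exact (LinearMap.quotKerEquivOfSurjective _ ev0_surj).symm.finiteDimensional

lemma index_shift : index shift = -1 := by
  unfold index
  rw [ker_shift, range_shift, (LinearMap.quotKerEquivOfSurjective _ ev0_surj).finrank_eq]
  simp

/-- For every complex Hilbert space `H` and every Fredholm operator `T` on `H`: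
(1) there are compact `K₁`, `K₂` with `(T + K₁, T + K₂)` a commuting pair with an exact Koszul
complex if and only if `index T = 0`;
(2) if `index T ≠ 0` and `K₁`, `K₂` are compact with `T + K₁` and `T + K₂` commuting, then the
Koszul complex already fails to be exact at one of its two ends: the two operators have a common
kernel vector, or their ranges do not span `H`.
(3) The unilateral shift on `ℓ²(ℕ)` is a Fredholm operator of index `-1`; hence it has no
commuting invertible compact perturbation `(T + K₁, T + K₂)`. -/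
theorem result :
    (∀ (H : Type) [NormedAddCommGroup H] [InnerProductSpace ℂ H] [CompleteSpace H]
      (T : H →L[ℂ] H), FredholmOp T →
      (HasInvertiblePerturbation T ↔ index T = 0) ∧ (index T ≠ 0 → EndsFail T)) ∧
    (∃ T, IsShift T ∧ FredholmOp T ∧ index T = -1 ∧ ¬ HasInvertiblePerturbation T) := by
  refine ⟨?_, shift, fun f => ⟨rfl, fun n => rfl⟩, fredholm_shift, index_shift, ?_⟩
  · intro H _ _ _ T hT
    refine ⟨⟨?_, exists_of_index_zero hT⟩, ?_⟩
    · rintro ⟨K₁, K₂, hK₁, hK₂, hc, h0, h1, -⟩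
      exact index_zero_of_ends hT hK₁ hK₂ hc h0 h1
    · intro hi K₁ K₂ hK₁ hK₂ hc
      by_contra hcon
      unfold EndFails at hcon
      push Not at hcon
      obtain ⟨ha, hb⟩ := hcon
      refine hi (index_zero_of_ends hT hK₁ hK₂ hc ?_ hb)
      intro x hx1 hx2
      by_contra hx
      exact ha x hx hx1 hx2
  · rintro ⟨K₁, K₂, hK₁, hK₂, hc, h0, h1, -⟩
    have h2 := index_zero_of_ends fredholm_shift hK₁ hK₂ hc h0 h1
    rw [index_shift] at h2
    norm_num at h2

end Pool.Agent.Results.MP_b56e9d_an.IndexObstruction
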